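import Mathlib
import Pool.Agent.H6.Coarse

namespace Pool.Agent.Results.MP_64ab56_co.Counter

/-- A graph is planar if it can be drawn in the plane `ℂ`: vertices at distinct points, each edge a
Jordan arc between its ends, through no other vertex, distinct edges meeting only at vertices. -/
def IsPlanar {V : Type} (G : SimpleGraph V) : Prop :=
  ∃ (p : V → ℂ) (arc : ∀ u v, G.Adj u v → Path (p u) (p v)), Function.Injective p ∧
    (∀ u v h, Function.Injective (arc u v h)) ∧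
    (∀ u v h, Set.range (arc v u (G.adj_symm h)) = Set.range (arc u v h)) ∧
    (∀ u v h w, p w ∈ Set.range (arc u v h) → w = u ∨ w = v) ∧
    ∀ u v h u' v' h', s(u, v) ≠ s(u', v') →
      Set.range (arc u v h) ∩ Set.range (arc u' v' h') ⊆ Set.range p

/-- `G` contains `k` pairwise edge-disjoint nonplanar subgraphs. -/
def Packs {V : Type} (G : SimpleGraph V) (k : ℕ) : Prop :=
  ∃ H : Fin k → SimpleGraph V, (∀ i, H i ≤ G) ∧
    (∀ i j, i ≠ j → Disjoint (H i).edgeSet (H j).edgeSet) ∧ ∀ i, ¬ IsPlanar (H i)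

/-- `K_p` contains `k` pairwise edge-disjoint nonplanar subgraphs. -/
def PK (p k : ℕ) : Prop := Packs (⊤ : SimpleGraph (Fin p)) k

/-- The coarseness of `K_p` equals `k`. -/
def Xi (p k : ℕ) : Prop := IsGreatest {j | PK p j} k

theorem result :
    (PK 13 8 ∧ PK 16 13 ∧ PK 18 16 ∧ PK 21 22 ∧ PK 24 29 ∧ PK 25 33 ∧ PK 27 37) ∧
    (¬ Xi 13 7 ∧ ¬ Xi 18 15 ∧ ¬ Xi 21 21 ∧ ¬ Xi 24 28 ∧ ¬ Xi 27 36 ∧
      ¬ ∀ n : ℕ, 1 ≤ n → Xi (9 * n + 7) ((9 * n ^ 2 + 13 * n + 2) / 2)) := by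
  have k : ∀ {p a b : ℕ}, PK p a → b < a → ¬ Xi p b := fun h l g => absurd (g.2 h) (not_le.mpr l)
  have h13 : PK 13 8 := Pool.Agent.H6.Coarse.p13
  have h16 : PK 16 13 := Pool.Agent.H6.Coarse.p16
  have h18 : PK 18 16 := Pool.Agent.H6.Coarse.p18
  have h21 : PK 21 22 := Pool.Agent.H6.Coarse.p21
  have h24 : PK 24 29 := Pool.Agent.H6.Coarse.p24
  have h25 : PK 25 33 := Pool.Agent.H6.Coarse.p25
  have h27 : PK 27 37 := Pool.Agent.H6.Coarse.p27
  exact ⟨⟨h13, h16, h18, h21, h24, h25, h27⟩, k h13 (by norm_num), k h18 (by norm_num),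
    k h21 (by norm_num), k h24 (by norm_num), k h27 (by norm_num),
    fun h => k h16 (by norm_num : 12 < 13) (h 1 le_rfl)⟩

end Pool.Agent.Results.MP_64ab56_co.Counter
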